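import Mathlib
import Pool.Agent.Q64.L.InstA
import Pool.Agent.Q306.FG.Thms

/-!
# Étale motivic cohomology in the weight of the dimension, for the products of varieties over
finite fields with almost all abelian varieties

Let `g i` (`i` in a finite set `I`) be positive integers, `r` an integer smaller than all the `g
i` and `E` a number field. For a prime power `q` let `S i` be the set of the characteristic
polynomials of Frobenius of the ordinary abelian varieties of dimension `g i` over the field with
`q` elements, or of all abelian varieties of dimension `g i`, or any set in between. By Weil,
Honda and Tate its elements correspond to the isogeny classes, the first set contains
`ordinaryWeilPolys q (g i)`, and the second one is contained in `weilPolys q (g i)`.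

For almost all families `f i` in `S i` (`AlmostAll`: with the exception of a proportion `O (q ^
(-1 / 6) log q)`, the constant depending only on `g`, `r` and `E`) the following is true. Let `A`
be an abelian variety over the field with `Q = q ^ s` elements, `s > 0`, which is isogenous to a
product of powers of abelian varieties coming from the field with `q` elements, with
characteristic polynomials `f i`, and let `Z` be **any** smooth projective variety over the field
with `Q` elements such that

* the eigenvalues `ρ` of Frobenius on the cohomology of `Z` and their conjugates are in a group of
  rank at most `r` over `E` (`RootsRank`): there are nonzero numbers `u 1, ..., u r` such that
  each `ρ` has a power which is the product of a nonzero element of `E` and of integral powers of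
  `u 1, ..., u r`;
* the motive of `Z` is finite-dimensional in the sense of Kimura and O'Sullivan. This is known for
  all varieties dominated by products of curves. It implies that the Frobenius endomorphism of `Z`
  satisfies, as a correspondence modulo rational equivalence, a polynomial equation with the same
  roots as on the cohomology; only this is used.

**The groups `H^i((A × Z)_et, ℤ(dim A + d))`, `i ≤ 2 (dim A + d)`, are finitely generated
(question Q1 for `A × Z`) if and only if for all `k` with `0 ≤ k ≤ dim A` the groups `H^i(Z_et,
ℤ(d + k))`, `i ≤ 2 (d + k)`, are finitely generated**, where `d = dim Z` (`TopReduces`). For `k =
0` this is question Q1 for `Z`. So question Q1 for `A × Z` implies question Q1 for `Z`; but it is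
stronger, as it contains the finite generation for `Z` in the weights `d + 1, ..., d + dim A`
(cases of the conjecture of Flach and Morin for the complexes `ℤ^c(n)` with `- dim A ≤ n < 0`). No
case of the conjectures of Tate, Beilinson, Soulé and Parshin is assumed.

What is used of `A` are known theorems (`IsAbelian`): `H(A)` is generated by `H^1`, Frobenius is
diagonalizable on `H^1` (Weil), the theorem of Tate on divisors, and the nilpotence of
homologically trivial correspondences (Kimura). The motivic cohomology groups `H^i(X, ℚ(m))`, for
`X = Z` and `X = A × Z`, are the groups of bidegree `(i, m)` of a theory which is modelled by
`RelData`, with the formal properties in `IsTheory`: degrees, products with classes on `A`,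
push-forward to `Z`, the projection formula, the operation of the correspondences of `A` and of
the Frobenius endomorphism of `Z`. The Frobenius endomorphism of `X` is the multiplication by `Q ^
m` on `H^i(X, ℚ(m))` (`IsPure`). The groups `H^i(X_et, ℤ(m))` and `H^i(X_et, ℚ/ℤ(m))` belong to
the long exact sequences of `0 → ℤ(m) → ℚ(m) → ℚ/ℤ(m) → 0` (`EtaleData`, `IsEtale`). It is known
for smooth projective `X` (`IsSmoothProjective`) that `H^i(X_et, ℚ/ℤ(m))` is finite for `m > dim
X`, and for `m = dim X`, `i < 2 m` (Deligne, Gabber, Gros and Suwa), and that `H^(2 m)(X_et,
ℤ(m))` is finitely generated for `m ≥ dim X`.

For `r = 0` the assumption on the eigenvalues says that they and their conjugates have powers in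
`E`. If for instance a factor of this kind over the field with `q'` elements is given, one can
take for `E` the field generated by the Frobenius eigenvalues and their conjugates, and apply the
theorem to the powers `q` of `q'`.

Relation to other results. Helper64 has the theorem for the rational groups (the conjecture of
Parshin, MP_27fd67_ag), after helper156. New here are the groups with integral coefficients and
the range of weights and degrees of the question.

The proof. By a sieve (helper521), which only uses the primes that split completely in the Galois
closure of `E` - these have positive density by the theorem of Chebotarev, formalized by helper401
- almost all families are such that each pair `α`, `q / α` of roots can be exchanged by a Galois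
automorphism which fixes all the other roots of all the `f i` and also all elements of `E`. So a
multiplicative relation between `ρ`, a power of `q` and roots of the `f i`, other than those which
follow from `α (q / α) = q`, would make the roots of one `f i` generate a group of rank at most `r
< g i` modulo `E`, up to powers, which is impossible. It follows that the correspondence on `A`
given by the sum of the products of dual classes of divisor products acts as the identity on the
motivic cohomology of `A × Z`: the Frobenius endomorphism of `A × Z` is the multiplication by `Q ^
j`, so that the Frobenius endomorphism of `A` satisfies a power of the polynomial reciprocal to
that of the Frobenius endomorphism of `Z`; this polynomial is prime to the one whose value on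
`H(A)` lies in the part generated by divisors, and the difference of the two correspondences is
nilpotent (helper64). So the rational motivic cohomology of `A × Z` is the direct sum of the
products of finitely many products of divisors on `A` with that of `Z`. In the weights `m ≥ dim X`
and the degrees in question a group with integral coefficients is finitely generated if and only
if the rational group is zero: if it is finitely generated, then the rational group modulo its
image is a divisible subgroup of a finite group, hence zero, so that the rational group is
finitely generated. (The idea to play the eigenvalues of Frobenius off against nilpotence is due
to Soulé, Geisser and Kahn.)
-/

set_option autoImplicit false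

namespace Pool.Agent.Results.MP_b197b4_nt.AlmostAllTimes

open Pool.Agent.Y156.L Pool.Agent.Q64.L Pool.Agent.Q306.FG

/-- **Question Q1 for `A × Z` is question Q1 for `Z`, together with finite generation in the
weights up to `dim Z + dim A`**, for almost all abelian varieties `A` and all `Z` of small
Frobenius rank. -/
theorem result {I : Type} [Fintype I] (g : I → ℕ) (r : ℕ) (hr : ∀ i, r < g i)
    (E : IntermediateField ℚ ℂ) [FiniteDimensional ℚ E] :
    AlmostAll g fun q F => TopReduces (RootsRank E r) q F :=
  countA g r hr E (fun q F => TopReduces (RootsRank E r) q F)
    fun _ _ hq hG => topReduces hq hG

end Pool.Agent.Results.MP_b197b4_nt.AlmostAllTimes
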